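import Pool.Agent.Q86.EM.Stm2

/-!
# Project FS of helper86, job MOL: smooth approximations of the squared distance
-/

set_option autoImplicit false

namespace Pool.Agent.Q262.EM

open MeasureTheory Set Filter Topology
open scoped ContDiff InnerProductSpace
open Pool.Agent.Q86.EM

/-- the growth of the derivatives of a convolution -/
theorem growth {G : Type} [NormedAddCommGroup G] [NormedSpace ℝ G] [FiniteDimensional ℝ G]
    [MeasurableSpace G] [BorelSpace G] (μ : Measure G) [μ.IsAddHaarMeasure] {W : G → ℝ}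
    (hW : Continuous W) {C : ℝ} (hC : 0 ≤ C) (hb : ∀ x, |W x| ≤ C * (1 + ‖x‖) ^ 2) (n : ℕ) :
    ∀ (E' F : Type) [NormedAddCommGroup E'] [NormedSpace ℝ E'] [NormedAddCommGroup F]
      [NormedSpace ℝ F] (L : ℝ →L[ℝ] E' →L[ℝ] F) (g : G → E'), ContDiff ℝ ∞ g → HasCompactSupport g →
      ∃ C' : ℝ, ∀ x, ‖iteratedFDeriv ℝ n (convolution W g L μ) x‖ ≤ C' * (1 + ‖x‖) ^ 2 := by
  induction n with
  | zero =>
    intro E' F _ _ _ _ L g hg hs
    obtain ⟨R, hR⟩ : ∃ R : ℝ, ∀ y, g y ≠ 0 → ‖y‖ ≤ R := by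
      obtain ⟨R, hR⟩ := hs.isCompact.isBounded.subset_closedBall (0 : G)
      refine ⟨R, fun y hy => ?_⟩
      have := hR (subset_tsupport g hy)
      simpa using this
    have hi : Integrable (fun y => ‖g y‖) μ := (hg.continuous.integrable_of_hasCompactSupport hs).norm
    refine ⟨‖L‖ * C * (1 + |R|) ^ 2 * ∫ y, ‖g y‖ ∂μ, fun x => ?_⟩
    rw [norm_iteratedFDeriv_zero]
    unfold convolution
    have hi2 : Integrable (fun t => ‖g (x - t)‖) μ := hi.comp_sub_left x
    have h1 : ‖∫ t, (L (W t)) (g (x - t)) ∂μ‖ ≤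
        ∫ t, ‖L‖ * C * (1 + |R|) ^ 2 * (1 + ‖x‖) ^ 2 * ‖g (x - t)‖ ∂μ := by
      refine norm_integral_le_of_norm_le (hi2.const_mul _) (Eventually.of_forall fun t => ?_)
      by_cases h0 : g (x - t) = 0
      · rw [h0, map_zero, norm_zero, norm_zero, mul_zero]
      · have h2 := hR _ h0
        have h3 : ‖t‖ ≤ ‖x‖ + |R| := by
          have h4 : ‖t‖ ≤ ‖x‖ + ‖x - t‖ := by
            calc ‖t‖ = ‖x - (x - t)‖ := by rw [sub_sub_cancel]
              _ ≤ ‖x‖ + ‖x - t‖ := norm_sub_le _ _
          linarith [le_abs_self R]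
        have h5 : |W t| ≤ C * ((1 + |R|) ^ 2 * (1 + ‖x‖) ^ 2) := by
          refine (hb t).trans (mul_le_mul_of_nonneg_left ?_ hC)
          rw [← mul_pow]
          have h6 : 1 + ‖t‖ ≤ (1 + |R|) * (1 + ‖x‖) := by
            have := mul_nonneg (abs_nonneg R) (norm_nonneg x)
            nlinarith
          exact pow_le_pow_left₀ (by positivity) h6 2
        calc ‖(L (W t)) (g (x - t))‖ ≤ ‖L (W t)‖ * ‖g (x - t)‖ := ContinuousLinearMap.le_opNorm _ _
          _ ≤ ‖L‖ * ‖W t‖ * ‖g (x - t)‖ := by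
              gcongr
              exact ContinuousLinearMap.le_opNorm _ _
          _ ≤ ‖L‖ * (C * ((1 + |R|) ^ 2 * (1 + ‖x‖) ^ 2)) * ‖g (x - t)‖ := by
              rw [Real.norm_eq_abs]
              gcongr
          _ = ‖L‖ * C * (1 + |R|) ^ 2 * (1 + ‖x‖) ^ 2 * ‖g (x - t)‖ := by ring
    refine h1.trans (le_of_eq ?_)
    rw [integral_const_mul, integral_sub_left_eq_self (fun y => ‖g y‖) μ x]
    ring
  | succ n ih =>
    intro E' F _ _ _ _ L g hg hs
    obtain ⟨C', h⟩ := ih (G →L[ℝ] E') (G →L[ℝ] F) (L.precompR G) (fderiv ℝ g)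
      (hg.fderiv_right (m := ∞) (by exact_mod_cast le_top)) (hs.fderiv (𝕜 := ℝ))
    refine ⟨C', fun x => ?_⟩
    rw [← norm_iteratedFDeriv_fderiv]
    have e : fderiv ℝ (convolution W g L μ) = convolution W (fderiv ℝ g) (L.precompR G) μ := by
      funext x
      exact (hs.hasFDerivAt_convolution_right L hW.locallyIntegrable
        (hg.of_le (by exact_mod_cast le_top)) x).fderiv
    rw [e]
    exact h x

/-- the distance to a compact convex set is convex -/
theorem infDist_conv {E : Type} [NormedAddCommGroup E] [NormedSpace ℝ E] {D : Set E} (hD : IsCompact D)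
    (hc : Convex ℝ D) (hne : D.Nonempty) {x y : E} {a b : ℝ} (ha : 0 ≤ a) (hb : 0 ≤ b) (hab : a + b = 1) :
    Metric.infDist (a • x + b • y) D ≤ a * Metric.infDist x D + b * Metric.infDist y D := by
  obtain ⟨p, hp, hpe⟩ := hD.exists_infDist_eq_dist hne x
  obtain ⟨q, hq, hqe⟩ := hD.exists_infDist_eq_dist hne y
  refine (Metric.infDist_le_dist_of_mem (hc hp hq ha hb hab)).trans ?_
  rw [hpe, hqe, dist_eq_norm, dist_eq_norm, dist_eq_norm]
  have e : a • x + b • y - (a • p + b • q) = a • (x - p) + b • (y - q) := by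
    rw [smul_sub, smul_sub]
    abel
  rw [e]
  refine (norm_add_le _ _).trans (le_of_eq ?_)
  rw [norm_smul, norm_smul, Real.norm_of_nonneg ha, Real.norm_of_nonneg hb]

/-- the squared distance is convex -/
theorem sq_conv {E : Type} [NormedAddCommGroup E] [NormedSpace ℝ E] {D : Set E} (hD : IsCompact D)
    (hc : Convex ℝ D) (hne : D.Nonempty) {A : ℝ} (hA : 0 < A) {x y : E} {a b : ℝ} (ha : 0 ≤ a)
    (hb : 0 ≤ b) (hab : a + b = 1) :
    A / 2 * Metric.infDist (a • x + b • y) D ^ 2 ≤
      a * (A / 2 * Metric.infDist x D ^ 2) + b * (A / 2 * Metric.infDist y D ^ 2) := by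
  have h1 := infDist_conv hD hc hne (x := x) (y := y) ha hb hab
  have h0 : 0 ≤ Metric.infDist (a • x + b • y) D := Metric.infDist_nonneg
  have h2 : Metric.infDist (a • x + b • y) D ^ 2 ≤ (a * Metric.infDist x D + b * Metric.infDist y D) ^ 2 :=
    pow_le_pow_left₀ h0 h1 2
  have h3 : (a * Metric.infDist x D + b * Metric.infDist y D) ^ 2 ≤
      a * Metric.infDist x D ^ 2 + b * Metric.infDist y D ^ 2 := by
    have e : b = 1 - a := by linarith
    have h4 : 0 ≤ a * b := mul_nonneg ha hb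
    have h5 := mul_nonneg h4 (sq_nonneg (Metric.infDist x D - Metric.infDist y D))
    rw [e] at h5 ⊢
    nlinarith
  have h6 : 0 < A / 2 := by positivity
  nlinarith

/-- **MOL** -/
theorem mol : S_MOL := by
  intro κ _ D hD hcv hne A hA
  obtain ⟨d0, hd0⟩ := hne
  have hne : D.Nonempty := ⟨d0, hd0⟩
  obtain ⟨W, hW⟩ : ∃ W : Eu κ → ℝ, W = fun x => A / 2 * Metric.infDist x D ^ 2 := ⟨_, rfl⟩
  have hWx : ∀ x, W x = A / 2 * Metric.infDist x D ^ 2 := fun x => by rw [hW]
  have hWc : Continuous W := by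
    rw [hW]
    exact continuous_const.mul ((Metric.continuous_infDist_pt D).pow 2)
  have hW0 : ∀ x, 0 ≤ W x := fun x => by rw [hWx]; positivity
  have hWb : ∀ x, |W x| ≤ A / 2 * (1 + ‖d0‖) ^ 2 * (1 + ‖x‖) ^ 2 := by
    intro x
    rw [abs_of_nonneg (hW0 x), hWx, mul_assoc, ← mul_pow]
    have h1 : Metric.infDist x D ≤ (1 + ‖d0‖) * (1 + ‖x‖) := by
      refine (Metric.infDist_le_dist_of_mem hd0).trans ?_
      rw [dist_eq_norm]
      have := norm_sub_le x d0
      have := mul_nonneg (norm_nonneg d0) (norm_nonneg x)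
      nlinarith
    have h2 : Metric.infDist x D ^ 2 ≤ ((1 + ‖d0‖) * (1 + ‖x‖)) ^ 2 :=
      pow_le_pow_left₀ Metric.infDist_nonneg h1 2
    exact mul_le_mul_of_nonneg_left h2 (by positivity)
  obtain ⟨b, hb⟩ : ∃ b : ContDiffBump (0 : Eu κ), b.rOut = 1 / A :=
    ⟨⟨1 / (2 * A), 1 / A, by positivity, by
      rw [div_lt_div_iff₀ (by positivity) hA]
      linarith⟩, rfl⟩
  obtain ⟨φ, hφ⟩ : ∃ φ : Eu κ → ℝ, φ = b.normed volume := ⟨_, rfl⟩
  have hφ0 : ∀ y, 0 ≤ φ y := fun y => by rw [hφ]; exact b.nonneg_normed y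
  have hφs : ContDiff ℝ ∞ φ := by rw [hφ]; exact b.contDiff_normed
  have hφc : HasCompactSupport φ := by rw [hφ]; exact b.hasCompactSupport_normed
  have hφ1 : ∫ y, φ y = 1 := by rw [hφ]; exact b.integral_normed
  have hφn : ∀ y, φ (-y) = φ y := fun y => by rw [hφ]; exact b.normed_neg y
  have hφr : ∀ y, φ y ≠ 0 → ‖y‖ ≤ 1 / A := by
    intro y hy
    have h1 : y ∈ Function.support (b.normed volume) := by
      rw [← hφ]
      exact hy
    rw [b.support_normed_eq, hb] at h1
    have := Metric.mem_ball.1 h1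
    rw [dist_zero_right] at this
    exact this.le
  have hint : ∀ V : Eu κ → ℝ, Continuous V → Integrable (fun y => V y * φ y) := fun V hV =>
    (hV.mul hφs.continuous).integrable_of_hasCompactSupport hφc.mul_left
  obtain ⟨U, hU⟩ : ∃ U : Eu κ → ℝ, U = fun x => ∫ y, W (x - y) * φ y := ⟨_, rfl⟩
  have hUx : ∀ x, U x = ∫ y, W (x - y) * φ y := fun x => by rw [hU]
  have hUconv : U = convolution W φ (ContinuousLinearMap.mul ℝ ℝ) volume := by
    funext x
    rw [hUx]
    unfold convolution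
    rw [← integral_sub_left_eq_self (fun y => W (x - y) * φ y) volume x]
    refine integral_congr_ae (Eventually.of_forall fun y => ?_)
    simp
  -- the symmetric form
  have hcx : ∀ x, Continuous fun y => W (x - y) := fun x => hWc.comp (continuous_const.sub continuous_id)
  have hcx' : ∀ x, Continuous fun y => W (x + y) := fun x => hWc.comp (continuous_const.add continuous_id)
  have hsym : ∀ x, U x = ∫ y, (W (x - y) + W (x + y)) / 2 * φ y := by
    intro x
    have h1 : ∫ y, W (x + y) * φ y = U x := by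
      rw [hUx, ← integral_neg_eq_self (fun y => W (x - y) * φ y) volume]
      refine integral_congr_ae (Eventually.of_forall fun y => ?_)
      simp only
      rw [sub_neg_eq_add, hφn]
    have h2 : ∫ y, (W (x - y) + W (x + y)) / 2 * φ y =
        1 / 2 * (∫ y, W (x - y) * φ y) + 1 / 2 * ∫ y, W (x + y) * φ y := by
      rw [← integral_const_mul, ← integral_const_mul,
        ← integral_add ((hint _ (hcx x)).const_mul _) ((hint _ (hcx' x)).const_mul _)]
      refine integral_congr_ae (Eventually.of_forall fun y => ?_)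
      simp only
      ring
    rw [h2, h1, ← hUx]
    ring
  have hconst : ∀ c : ℝ, ∫ y, c * φ y = c := fun c => by rw [integral_const_mul, hφ1, mul_one]
  refine ⟨U, ⟨?_, ?_⟩, ?_, ?_, ?_⟩
  · rw [hUconv]
    exact hφc.contDiff_convolution_right (n := ⊤) _ hWc.locallyIntegrable hφs
  · intro n
    obtain ⟨C', h⟩ := growth volume hWc (by positivity) hWb n ℝ ℝ (ContinuousLinearMap.mul ℝ ℝ) φ hφs hφc
    refine ⟨2, C', fun x => ?_⟩
    rw [hUconv]
    exact h x
  · -- convexity
    refine ⟨convex_univ, fun x _ y _ s t hs ht hst => ?_⟩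
    rw [hUx, hUx, hUx, smul_eq_mul, smul_eq_mul, ← integral_const_mul, ← integral_const_mul,
      ← integral_add ((hint _ (hcx x)).const_mul _) ((hint _ (hcx y)).const_mul _)]
    refine integral_mono (hint _ (hcx _)) (((hint _ (hcx x)).const_mul _).add ((hint _ (hcx y)).const_mul _))
      fun z => ?_
    simp only
    have e : s • x + t • y - z = s • (x - z) + t • (y - z) := by
      have : z = s • z + t • z := by rw [← add_smul, hst, one_smul]
      rw [smul_sub, smul_sub]
      nth_rewrite 1 [this]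
      abel
    have h1 := sq_conv hD hcv hne hA (x := x - z) (y := y - z) hs ht hst
    rw [← e, ← hWx, ← hWx, ← hWx] at h1
    have h2 := mul_le_mul_of_nonneg_right h1 (hφ0 z)
    linarith
  · -- lower bound
    intro x
    rw [← hWx, hsym, ← hconst (W x)]
    refine integral_mono ((hφs.continuous.integrable_of_hasCompactSupport hφc).const_mul _)
      (hint _ (((hcx x).add (hcx' x)).div_const 2)) fun y => ?_
    simp only
    have h1 := sq_conv hD hcv hne hA (x := x - y) (y := x + y) (a := 1 / 2) (b := 1 / 2)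
      (by norm_num) (by norm_num) (by norm_num)
    have e : (1 / 2 : ℝ) • (x - y) + (1 / 2 : ℝ) • (x + y) = x := by
      rw [← smul_add]
      have : x - y + (x + y) = (2 : ℝ) • x := by
        rw [two_smul]
        abel
      rw [this, smul_smul]
      norm_num
    rw [e, ← hWx, ← hWx, ← hWx] at h1
    refine mul_le_mul_of_nonneg_right ?_ (hφ0 y)
    linarith
  · -- upper bound
    intro x
    rw [← hWx, hsym, ← hconst (W x + 1 / A)]
    refine integral_mono (hint _ (((hcx x).add (hcx' x)).div_const 2))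
      ((hφs.continuous.integrable_of_hasCompactSupport hφc).const_mul _) fun y => ?_
    simp only
    by_cases h0 : φ y = 0
    · rw [h0, mul_zero, mul_zero]
    refine mul_le_mul_of_nonneg_right ?_ (hφ0 y)
    have hy := hφr y h0
    obtain ⟨p, hp, hpe⟩ := hD.exists_infDist_eq_dist hne x
    have h1 : Metric.infDist (x - y) D ≤ ‖(x - p) - y‖ := by
      refine (Metric.infDist_le_dist_of_mem hp).trans (le_of_eq ?_)
      rw [dist_eq_norm]
      congr 1
      abel
    have h2 : Metric.infDist (x + y) D ≤ ‖(x - p) + y‖ := by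
      refine (Metric.infDist_le_dist_of_mem hp).trans (le_of_eq ?_)
      rw [dist_eq_norm]
      congr 1
      abel
    have h3 : Metric.infDist (x - y) D ^ 2 ≤ ‖(x - p) - y‖ ^ 2 := pow_le_pow_left₀ Metric.infDist_nonneg h1 2
    have h4 : Metric.infDist (x + y) D ^ 2 ≤ ‖(x - p) + y‖ ^ 2 := pow_le_pow_left₀ Metric.infDist_nonneg h2 2
    have h5 : ‖(x - p) + y‖ ^ 2 + ‖(x - p) - y‖ ^ 2 = 2 * (‖x - p‖ ^ 2 + ‖y‖ ^ 2) := by
      have := parallelogram_law_with_norm ℝ (x - p) y
      nlinarith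
    have h6 : Metric.infDist x D = ‖x - p‖ := by rw [hpe, dist_eq_norm]
    have h7 : ‖y‖ ^ 2 ≤ (1 / A) ^ 2 := pow_le_pow_left₀ (norm_nonneg _) hy 2
    rw [hWx, hWx, hWx, h6]
    have h8 : (A / 2 * Metric.infDist (x - y) D ^ 2 + A / 2 * Metric.infDist (x + y) D ^ 2) / 2 ≤
        A / 2 * (‖x - p‖ ^ 2 + ‖y‖ ^ 2) := by
      have h9 : 0 < A / 4 := by positivity
      nlinarith
    have h10 : A / 2 * ‖y‖ ^ 2 ≤ 1 / A := by
      calc A / 2 * ‖y‖ ^ 2 ≤ A / 2 * (1 / A) ^ 2 := mul_le_mul_of_nonneg_left h7 (by positivity)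
        _ = 1 / 2 * (1 / A) := by field_simp
        _ ≤ 1 / A := by
            have : 0 < 1 / A := by positivity
            linarith
    linarith

end Pool.Agent.Q262.EM
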